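import Pool.Agent.H88.MCR.Stmts4

/-!
Row B8X of the board `mcr`: the 25 crossing pairs of the base diagram (model: row B6G of helper14).
-/

set_option autoImplicit false

namespace Pool.MCR

namespace B8X

set_option synthInstance.maxSize 100000
set_option maxRecDepth 100000

instance decBtw (a b c : ℕ) : Decidable (Btw a b c) := by unfold Btw; infer_instance

instance decOut (a b c : ℕ) : Decidable (Out a b c) := by unfold Out; infer_instance

instance decInter (a b c d : ℕ) : Decidable (Inter a b c d) := by unfold Inter; infer_instance

instance decCross (A B : Arc ℕ) : Decidable (Cross A B) := by unfold Cross; infer_instance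

instance decEX (α β : List (Arc ℕ)) : Decidable (EX α β) := by unfold EX; infer_instance

theorem all : ∀ q ∈ X8, EX (B8.A q.1 q.2.1) (B8.A q.2.2.1 q.2.2.2) := by decide +kernel

end B8X

theorem b8x_thm : B8X_S := B8X.all

end Pool.MCR
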